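import Pool.Agent.Helper69.UX.StD

set_option autoImplicit false

namespace Pool.Agent.Helper10.UX

open Finset Filter Pool.Agent.Helper82.CN Pool.Agent.Helper11.PV Pool.Agent.Helper69.VX
  Pool.Agent.Helper69.UX

theorem fac_log_up (N : ℕ) (hN : 1 ≤ N) :
    Real.log (N.factorial : ℝ) ≤ 1 + Real.log N + N * Real.log N - N := by
  induction N, hN using Nat.le_induction with
  | base => simp
  | succ N hN ih =>
    have hN0 : (0 : ℝ) < N := by exact_mod_cast hN
    have h1 : Real.log ((N + 1).factorial : ℝ)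
        = Real.log ((N : ℝ) + 1) + Real.log (N.factorial : ℝ) := by
      rw [Nat.factorial_succ]
      push_cast
      rw [Real.log_mul (by positivity) (by positivity)]
    have h2 : Real.log ((N : ℝ) / (N + 1)) ≤ (N : ℝ) / (N + 1) - 1 :=
      Real.log_le_sub_one_of_pos (by positivity)
    rw [Real.log_div (by positivity) (by positivity)] at h2
    have h3 : (N : ℝ) / (N + 1) - 1 = -(1 / (N + 1)) := by field_simp; ring
    have h4 : ((N : ℝ) + 1) * (Real.log N - Real.log (N + 1)) ≤ -1 := by
      have := mul_le_mul_of_nonneg_left (h2.trans (le_of_eq h3))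
        (by positivity : (0 : ℝ) ≤ (N : ℝ) + 1)
      calc _ ≤ _ := this
        _ = -1 := by field_simp
    rw [h1]
    push_cast
    nlinarith

theorem fac_log_lo (n : ℕ) (hn : 1 ≤ n) :
    (n : ℝ) * Real.log n - n ≤ Real.log (n.factorial : ℝ) := by
  have hn0 : (0 : ℝ) < n := by exact_mod_cast hn
  have h := Real.pow_div_factorial_le_exp (n : ℝ) hn0.le n
  have h1 := Real.log_le_log (by positivity) h
  rw [Real.log_exp, Real.log_div (by positivity) (by positivity), Real.log_pow] at h1
  linarith

theorem ph_eq (x : ℝ) : ph x = -((1 - x) * Real.log (1 - x)) := by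
  unfold ph
  rw [one_div, Real.log_inv]
  ring

theorem ph_lo {x : ℝ} (hx0 : 0 ≤ x) (hx1 : x ≤ 1) : x * (1 - x) ≤ ph x := by
  rcases hx1.eq_or_lt with rfl | h
  · rw [ph_eq]; simp
  · have h1 : Real.log (1 - x) ≤ (1 - x) - 1 := Real.log_le_sub_one_of_pos (by linarith)
    rw [ph_eq]
    nlinarith

theorem ph_up {x : ℝ} (hx0 : 0 ≤ x) (hx1 : x ≤ 1) : ph x ≤ x := by
  rcases hx1.eq_or_lt with rfl | h
  · rw [ph_eq]; simp
  · have hp : 0 < 1 - x := by linarith
    have h1 : Real.log (1 / (1 - x)) ≤ 1 / (1 - x) - 1 :=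
      Real.log_le_sub_one_of_pos (by positivity)
    unfold ph
    calc (1 - x) * Real.log (1 / (1 - x)) ≤ (1 - x) * (1 / (1 - x) - 1) :=
          mul_le_mul_of_nonneg_left h1 hp.le
      _ = x := by field_simp; ring

theorem hFAC : StFAC := by
  have part2 : ∀ x : ℝ, 0 ≤ x → x ≤ 1 →
      x - ph x ≤ x ^ 2 ∧ 0 ≤ x - ph x ∧ 0 ≤ ph x ∧ x * (1 - x) ≤ ph x := by
    intro x hx0 hx1
    have h1 := ph_lo hx0 hx1
    have h2 := ph_up hx0 hx1
    refine ⟨by nlinarith, by linarith, ?_, h1⟩
    exact (mul_nonneg hx0 (by linarith)).trans h1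
  refine ⟨?_, part2, ?_, ?_⟩
  · intro n N hN hNn
    have hn : 1 ≤ n := hN.trans hNn
    have hn0 : (0 : ℝ) < n := by exact_mod_cast hn
    have hN0 : (0 : ℝ) < N := by exact_mod_cast hN
    have hNn' : (N : ℝ) ≤ n := by exact_mod_cast hNn
    have e1 : (n : ℝ) * ((1 - (N : ℝ) / n) - ph (1 - (N : ℝ) / n))
        = n - N + N * (Real.log N - Real.log n) := by
      rw [ph_eq]
      have : (1 : ℝ) - (1 - (N : ℝ) / n) = N / n := by ring
      rw [this, Real.log_div (by positivity) (by positivity)]
      field_simp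
      ring
    have hl : Real.log N ≤ Real.log n := Real.log_le_log hN0 hNn'
    have hup := fac_log_up N hN
    have hlo := fac_log_lo n hn
    have hL : (N.factorial : ℝ) * (n : ℝ) ^ (n - N)
        = Real.exp (Real.log (N.factorial : ℝ) + ((n : ℝ) - N) * Real.log n) := by
      rw [Real.exp_add, Real.exp_log (by positivity)]
      congr 1
      have : ((n : ℝ) - N) * Real.log n = Real.log ((n : ℝ) ^ (n - N)) := by
        rw [Real.log_pow, Nat.cast_sub hNn]
      rw [this, Real.exp_log (by positivity)]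
    have hR : (n.factorial : ℝ) * Real.exp (1 + Real.log n +
        n * ((1 - (N : ℝ) / n) - ph (1 - (N : ℝ) / n)))
        = Real.exp (Real.log (n.factorial : ℝ) + (1 + Real.log n +
          (n - N + N * (Real.log N - Real.log n)))) := by
      rw [e1, Real.exp_add (Real.log (n.factorial : ℝ)), Real.exp_log (by positivity)]
    rw [hL, hR]
    apply Real.exp_le_exp.mpr
    nlinarith
  · intro x y hx0 hxy hy1
    have hb : 0 < 1 - y := by linarith
    have ha : 0 < 1 - x := by linarith
    have h1 : Real.log ((1 - x) / (1 - y)) ≤ (1 - x) / (1 - y) - 1 :=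
      Real.log_le_sub_one_of_pos (by positivity)
    have h2 : Real.log ((1 - y) / (1 - x)) ≤ (1 - y) / (1 - x) - 1 :=
      Real.log_le_sub_one_of_pos (by positivity)
    rw [Real.log_div ha.ne' hb.ne'] at h1
    rw [Real.log_div hb.ne' ha.ne'] at h2
    have h1' : (1 - y) * (Real.log (1 - x) - Real.log (1 - y)) ≤ y - x := by
      calc (1 - y) * (Real.log (1 - x) - Real.log (1 - y))
          ≤ (1 - y) * ((1 - x) / (1 - y) - 1) := mul_le_mul_of_nonneg_left h1 hb.le
        _ = y - x := by field_simp; ring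
    have h2' : (1 - x) * (Real.log (1 - y) - Real.log (1 - x)) ≤ x - y := by
      calc (1 - x) * (Real.log (1 - y) - Real.log (1 - x))
          ≤ (1 - x) * ((1 - y) / (1 - x) - 1) := mul_le_mul_of_nonneg_left h2 ha.le
        _ = x - y := by field_simp; ring
    have hla : Real.log (1 - x) ≤ 0 := Real.log_nonpos ha.le (by linarith)
    have h3 : (y - x) * Real.log (1 - x) ≤ 0 :=
      mul_nonpos_of_nonneg_of_nonpos (by linarith) hla
    have h4 : Real.log (1 / (1 - y)) = -Real.log (1 - y) := by
      rw [one_div, Real.log_inv]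
    rw [ph_eq, ph_eq, h4]
    constructor
    · nlinarith
    · nlinarith
  · intro y hy0 hy1
    have := (part2 y hy0 hy1).1
    nlinarith

end Pool.Agent.Helper10.UX
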