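import Pool.Agent.Helper69.UX.StF

set_option autoImplicit false

namespace Pool.Agent.Helper10.UX

open Finset Filter Pool.Agent.Helper82.CN Pool.Agent.Helper11.PV Pool.Agent.Helper69.VX
  Pool.Agent.Helper69.UX

theorem bb_pos_SPC {p : ℝ} (h0 : 0 < p) (h1 : p ≤ 1 - 1 / Real.exp 2) : 0 < bb p := by
  have he : 0 < 1 / Real.exp 2 := by positivity
  unfold bb
  apply Real.log_pos
  rw [lt_div_iff₀ (by linarith)]
  linarith

theorem al_sub_SPC {p x y : ℝ} (hb : 0 < bb p) (hx0 : 0 < x) (hx : 2 ≤ Real.log x)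
    (hxy : x ≤ y) :
    (Real.log y - Real.log x) / bb p ≤ Pool.Agent.Helper82.CN.al p y - Pool.Agent.Helper82.CN.al p x ∧
      Pool.Agent.Helper82.CN.al p y - Pool.Agent.Helper82.CN.al p x ≤ 2 * (Real.log y - Real.log x) / bb p := by
  have hL : Real.log x ≤ Real.log y := Real.log_le_log hx0 hxy
  have hLx : 0 < Real.log x := by linarith
  have hLy : 0 < Real.log y := by linarith
  have e : Pool.Agent.Helper82.CN.al p y - Pool.Agent.Helper82.CN.al p x = (2 * ((Real.log y - Real.log x) -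
      (Real.log (Real.log y) - Real.log (Real.log x)))) / bb p := by
    unfold Pool.Agent.Helper82.CN.al
    rw [Real.log_div hLy.ne' hb.ne', Real.log_div hLx.ne' hb.ne']
    field_simp
    ring
  have h1 : 0 ≤ Real.log (Real.log y) - Real.log (Real.log x) := by
    have := Real.log_le_log hLx hL
    linarith
  have h2 : Real.log (Real.log y) - Real.log (Real.log x) ≤ (Real.log y - Real.log x) / 2 := by
    rw [← Real.log_div hLy.ne' hLx.ne']
    have h3 := Real.log_le_sub_one_of_pos (div_pos hLy hLx)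
    refine h3.trans ?_
    rw [div_sub_one hLx.ne']
    exact div_le_div_of_nonneg_left (by linarith) (by norm_num) hx
  rw [e]
  constructor
  · exact div_le_div_of_nonneg_right (by linarith) hb.le
  · exact div_le_div_of_nonneg_right (by linarith) hb.le

theorem al_low_SPC {p x : ℝ} (hb : 0 < bb p) (hx : 2 ≤ Real.log x) :
    Real.log x / bb p + (2 * Real.log (bb p) / bb p + 1) ≤ Pool.Agent.Helper82.CN.al p x := by
  have hLx : 0 < Real.log x := by linarith
  have h1 : Real.log (Real.log x) ≤ Real.log x / 2 := by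
    have h2 := Real.log_le_sub_one_of_pos (show 0 < Real.log x / 2 by linarith)
    rw [Real.log_div hLx.ne' two_ne_zero] at h2
    have h3 : Real.log 2 ≤ 1 := by
      have := Real.log_two_lt_d9
      linarith
    linarith
  have h4 : Real.log 2 ≤ 1 := by
    have := Real.log_two_lt_d9
    linarith
  have e : Pool.Agent.Helper82.CN.al p x - (Real.log x / bb p + (2 * Real.log (bb p) / bb p + 1)) =
      (Real.log x - 2 * Real.log (Real.log x) + 2 * (1 - Real.log 2)) / bb p := by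
    unfold Pool.Agent.Helper82.CN.al
    rw [Real.log_div hLx.ne' hb.ne']
    field_simp
    ring
  have h5 : 0 ≤ (Real.log x - 2 * Real.log (Real.log x) + 2 * (1 - Real.log 2)) / bb p :=
    div_nonneg (by linarith) hb.le
  linarith

open Classical in
theorem hSPC : StWth → StUXF → StSPC := by
  intro hW hU p x ε hp0 hp1 hx1 hx2 hε
  have hb := bb_pos_SPC hp0 hp1
  obtain ⟨δ, hδ⟩ : ∃ δ, δ = 1 - 2 * x := ⟨_, rfl⟩
  have hδ0 : 0 < δ := by rw [hδ]; linarith
  have hδ1 : δ ≤ 1 / 2 := by rw [hδ]; linarith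
  obtain ⟨e, he⟩ : ∃ e, e = min ε δ / 16 := ⟨_, rfl⟩
  have he0 : 0 < e := by rw [he]; have := lt_min hε hδ0; linarith
  have heε : 16 * e ≤ ε := by rw [he]; have := min_le_left ε δ; linarith
  have heδ : 16 * e ≤ δ := by rw [he]; have := min_le_right ε δ; linarith
  obtain ⟨η0, hη0, hη⟩ := hW p e hp0 hp1 he0 (by linarith)
  obtain ⟨nU, hnU⟩ := hU p e hp0 hp1 he0
  obtain ⟨η, hηd⟩ : ∃ η, η = min (η0 / 2) (min 1 (bb p * e)) := ⟨_, rfl⟩
  have hη1 : 0 < η := by
    rw [hηd]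
    exact lt_min (by linarith) (lt_min one_pos (by positivity))
  have hη2 : η < η0 := by
    rw [hηd]
    exact lt_of_le_of_lt (min_le_left _ _) (by linarith)
  have hη3 : η ≤ 1 := by
    rw [hηd]
    exact (min_le_right _ _).trans (min_le_left _ _)
  have hη4 : η ≤ bb p * e := by
    rw [hηd]
    exact (min_le_right _ _).trans (min_le_right _ _)
  obtain ⟨Nw, hNw⟩ := hη η hη1 hη2
  have hev : ∀ᶠ N : ℕ in Filter.atTop, (Nw ≤ N ∧ nU ≤ N) ∧ 2 ≤ Real.log (N : ℝ) ∧
      1 ≤ Real.log (N : ℝ) / bb p + (2 * Real.log (bb p) / bb p + 1) ∧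
      2 / (bb p * e) ≤ (N : ℝ) ∧ 2 ≤ (N : ℝ) ^ (e / 2) ∧ 1 ≤ N := by
    have hcast : Filter.Tendsto (fun N : ℕ => (N : ℝ)) Filter.atTop Filter.atTop :=
      tendsto_natCast_atTop_atTop
    have hlog : Filter.Tendsto (fun N : ℕ => Real.log (N : ℝ)) Filter.atTop Filter.atTop :=
      Real.tendsto_log_atTop.comp hcast
    have hpow : Filter.Tendsto (fun N : ℕ => (N : ℝ) ^ (e / 2)) Filter.atTop Filter.atTop :=
      (tendsto_rpow_atTop (by linarith)).comp hcast
    have hlin : Filter.Tendsto (fun N : ℕ => Real.log (N : ℝ) / bb p +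
        (2 * Real.log (bb p) / bb p + 1)) Filter.atTop Filter.atTop :=
      Filter.tendsto_atTop_add_const_right _ _ (hlog.atTop_div_const hb)
    filter_upwards [Filter.eventually_ge_atTop Nw, Filter.eventually_ge_atTop nU,
      hlog.eventually_ge_atTop 2,
      hlin.eventually_ge_atTop 1, hcast.eventually_ge_atTop (2 / (bb p * e)),
      hpow.eventually_ge_atTop 2, Filter.eventually_ge_atTop 1] with N h1 h1' h2 h3 h4 h5 h6
    exact ⟨⟨h1, h1'⟩, h2, h3, h4, h5, h6⟩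
  obtain ⟨N0, hN0⟩ := Filter.eventually_atTop.1 hev
  refine ⟨δ * η / 4, 2 * (Real.exp (bb p) + 1), by positivity, N0, fun N hN => ?_⟩
  obtain ⟨⟨hN1, hN1'⟩, hN2, hN3, hN4, hN5, hN6⟩ := hN0 N hN
  have hNpos : (0 : ℝ) < N := by exact_mod_cast hN6
  have hal1 : 1 ≤ Pool.Agent.Helper82.CN.al p N := hN3.trans (al_low_SPC hb hN2)
  obtain ⟨θ, hθ⟩ : ∃ θ, θ = 2 * x + e := ⟨_, rfl⟩
  obtain ⟨a, ha⟩ : ∃ a : ℕ, a = ⌊Pool.Agent.Helper82.CN.al p N - θ⌋₊ + 1 := ⟨_, rfl⟩
  have ha1 : Pool.Agent.Helper82.CN.al p N < a + θ := by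
    have := Nat.lt_floor_add_one (Pool.Agent.Helper82.CN.al p N - θ)
    rw [ha]
    push_cast
    linarith
  have ha2 : a + θ ≤ Pool.Agent.Helper82.CN.al p N + 1 := by
    have := Nat.floor_le (show 0 ≤ Pool.Agent.Helper82.CN.al p N - θ by rw [hθ]; linarith)
    rw [ha]
    push_cast
    linarith
  -- the least `N₁`
  have hM : ∃ M : ℕ, N ≤ M ∧ a + θ ≤ Pool.Agent.Helper82.CN.al p M ∧
      (M : ℝ) ≤ Real.exp (bb p) * N + 1 := by
    refine ⟨⌈Real.exp (bb p) * N⌉₊, ?_, ?_, (Nat.ceil_lt_add_one (by positivity)).le⟩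
    · have h1 : (N : ℝ) ≤ Real.exp (bb p) * N := by
        have := Real.one_le_exp hb.le
        nlinarith
      exact_mod_cast h1.trans (Nat.le_ceil _)
    · have h1 : (N : ℝ) ≤ Real.exp (bb p) * N := by
        have := Real.one_le_exp hb.le
        nlinarith
      have h2 := (al_sub_SPC hb hNpos hN2 (h1.trans (Nat.le_ceil _))).1
      have h3 : Real.log (Real.exp (bb p) * N) ≤ Real.log (⌈Real.exp (bb p) * N⌉₊ : ℝ) :=
        Real.log_le_log (by positivity) (Nat.le_ceil _)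
      rw [Real.log_mul (Real.exp_pos _).ne' hNpos.ne', Real.log_exp] at h3
      have h4 : 1 ≤ (Real.log (⌈Real.exp (bb p) * N⌉₊ : ℝ) - Real.log N) / bb p := by
        rw [le_div_iff₀ hb]
        linarith
      linarith
  obtain ⟨M, hM1, hM2, hM3⟩ := hM
  have hex : ∃ n : ℕ, N ≤ n ∧ a + θ ≤ Pool.Agent.Helper82.CN.al p n := ⟨M, hM1, hM2⟩
  obtain ⟨N₁, hN₁⟩ : ∃ n : ℕ, n = Nat.find hex := ⟨_, rfl⟩
  have hs := Nat.find_spec hex
  have hmin := fun m : ℕ => Nat.find_min (m := m) hex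
  have hle := Nat.find_min' hex ⟨hM1, hM2⟩
  rw [← hN₁] at hs hmin hle
  obtain ⟨hs1, hs2⟩ := hs
  have hne : N < N₁ := by
    rcases hs1.lt_or_eq with h | h
    · exact h
    · exfalso
      rw [← h] at hs2
      linarith
  have hprev : Pool.Agent.Helper82.CN.al p ((N₁ - 1 : ℕ) : ℝ) < a + θ := by
    by_contra hcon
    exact hmin (N₁ - 1) (by omega) ⟨by omega, not_lt.1 hcon⟩
  have hN₁r : ((N₁ - 1 : ℕ) : ℝ) = (N₁ : ℝ) - 1 := by
    rw [Nat.cast_sub (by omega), Nat.cast_one]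
  have hNr : (N : ℝ) ≤ (N₁ : ℝ) - 1 := by
    rw [← hN₁r]
    exact_mod_cast (by omega : N ≤ N₁ - 1)
  have hlogp : Real.log N ≤ Real.log ((N₁ : ℝ) - 1) := Real.log_le_log hNpos hNr
  have hup : Pool.Agent.Helper82.CN.al p N₁ ≤ a + θ + e := by
    have h1 := (al_sub_SPC (p := p) hb (x := (N₁ : ℝ) - 1) (y := N₁) (by linarith) (by linarith)
      (by linarith)).2
    rw [hN₁r] at hprev
    have h2 : Real.log N₁ - Real.log ((N₁ : ℝ) - 1) ≤ 1 / N := by
      rw [← Real.log_div (by linarith) (by linarith)]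
      have h3 := Real.log_le_sub_one_of_pos (show 0 < (N₁ : ℝ) / (N₁ - 1) from
        div_pos (by linarith) (by linarith))
      have h4 : (N₁ : ℝ) / (N₁ - 1) - 1 = 1 / ((N₁ : ℝ) - 1) := by
        rw [div_sub_one (by linarith)]
        congr 1
        ring
      rw [h4] at h3
      exact h3.trans (one_div_le_one_div_of_le hNpos hNr)
    have h5 : 2 * (Real.log N₁ - Real.log ((N₁ : ℝ) - 1)) / bb p ≤ e := by
      rw [div_le_iff₀ hb]
      have h6 : 1 / (N : ℝ) ≤ bb p * e / 2 := by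
        rw [div_le_iff₀ (by positivity)] at hN4
        rw [div_le_iff₀ hNpos]
        linarith
      linarith
    linarith
  have hN₁pos : (0 : ℝ) < N₁ := by linarith
  have hlogN₁ : 2 ≤ Real.log (N₁ : ℝ) := hN2.trans (Real.log_le_log hNpos (by linarith))
  have hfl : (⌊(1 + η) * (N₁ : ℝ)⌋₊ : ℝ) ≤ (1 + η) * N₁ := Nat.floor_le (by positivity)
  have hran : ∀ y : ℝ, (N₁ : ℝ) ≤ y → y ≤ (1 + η) * N₁ →
      Pool.Agent.Helper82.CN.al p N₁ ≤ Pool.Agent.Helper82.CN.al p y ∧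
      Pool.Agent.Helper82.CN.al p y ≤ a + 2 * x + 4 * e := by
    intro y hy1 hy2
    have h1 := al_sub_SPC (p := p) hb hN₁pos hlogN₁ hy1
    have h2 : Real.log y - Real.log N₁ ≤ η := by
      have h3 : Real.log y ≤ Real.log ((1 + η) * N₁) :=
        Real.log_le_log (by linarith) hy2
      rw [Real.log_mul (by linarith) hN₁pos.ne'] at h3
      have h4 := Real.log_le_sub_one_of_pos (show 0 < 1 + η by linarith)
      linarith
    have h5 : 2 * (Real.log y - Real.log N₁) / bb p ≤ 2 * e := by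
      rw [div_le_iff₀ hb]
      linarith
    have h6 : 0 ≤ (Real.log y - Real.log N₁) / bb p :=
      div_nonneg (sub_nonneg.2 (Real.log_le_log hN₁pos hy1)) hb.le
    rw [hθ] at hup
    exact ⟨by linarith [h1.1], by linarith [h1.2]⟩
  have h0fl : (N₁ : ℝ) ≤ ⌊(1 + η) * (N₁ : ℝ)⌋₊ := by
    have : N₁ ≤ ⌊(1 + η) * (N₁ : ℝ)⌋₊ := Nat.le_floor (by nlinarith)
    exact_mod_cast this
  have hwin : Pool.Agent.Helper82.CN.al p ((⌊(1 + η) * (N₁ : ℝ)⌋₊ : ℕ) : ℝ) ≤ a + 1 := by
    have h1 := (hran _ h0fl hfl).2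
    linarith
  have hcount := hNw N₁ a (hN1.trans hs1) (by rw [hθ] at hs2; linarith) hwin
  have hδη : δ * η / 4 * N ≤ (1 - (Pool.Agent.Helper82.CN.al p N₁ - a) - e) * (η * N₁) := by
    have h1 : δ / 4 ≤ 1 - (Pool.Agent.Helper82.CN.al p N₁ - a) - e := by
      rw [hθ] at hup; linarith
    have h2 : η * (N : ℝ) ≤ η * N₁ := mul_le_mul_of_nonneg_left (by linarith) hη1.le
    calc δ * η / 4 * N = δ / 4 * (η * N) := by ring
      _ ≤ (1 - (Pool.Agent.Helper82.CN.al p N₁ - a) - e) * (η * N₁) :=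
        mul_le_mul h1 h2 (by positivity) (by linarith)
  refine (hδη.trans hcount).trans ?_
  have hsub : ((Ioc N₁ ⌊(1 + η) * (N₁ : ℝ)⌋₊).filter
      (fun n : ℕ => (N₁ : ℝ) ^ ((Pool.Agent.Helper82.CN.al p N₁ - a) / 2 - e) ≤ sn p n)) ⊆
      ((Icc N ⌊2 * (Real.exp (bb p) + 1) * (N : ℝ)⌋₊).filter
        (fun n : ℕ => (n : ℝ) ^ (x - ε) ≤ sn p n ∧ sn p n ≤ (n : ℝ) ^ (x + ε))) := by
    intro n hn
    rw [Finset.mem_filter, Finset.mem_Ioc] at hn
    obtain ⟨⟨hn1, hn2⟩, hn3⟩ := hn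
    rw [Finset.mem_filter, Finset.mem_Icc]
    have hnr : (n : ℝ) ≤ (1 + η) * N₁ := le_trans (by exact_mod_cast hn2) hfl
    have hn2r : (n : ℝ) ≤ 2 * N₁ := by nlinarith
    have hN1r : (1 : ℝ) ≤ N := by exact_mod_cast hN6
    have hn1' : (1 : ℝ) ≤ n := by
      have : 1 ≤ n := by omega
      exact_mod_cast this
    refine ⟨⟨by omega, Nat.le_floor ?_⟩, ?_, ?_⟩
    · have h1 : (N₁ : ℝ) ≤ M := by exact_mod_cast hle
      have h2 : 2 * (Real.exp (bb p) + 1) * (N : ℝ) = 2 * (Real.exp (bb p) * N + N) := by ring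
      rw [h2]
      linarith
    · refine le_trans ?_ hn3
      have h1 : (n : ℝ) ^ (x - ε) ≤ (n : ℝ) ^ (x - e) :=
        Real.rpow_le_rpow_of_exponent_le hn1' (by linarith)
      have hxe : 0 ≤ x - e := by linarith
      have h2 : (n : ℝ) ^ (x - e) ≤ (2 * N₁ : ℝ) ^ (x - e) :=
        Real.rpow_le_rpow (by linarith) hn2r hxe
      have h3 : (2 * N₁ : ℝ) ^ (x - e) = 2 ^ (x - e) * (N₁ : ℝ) ^ (x - e) :=
        Real.mul_rpow (by norm_num) hN₁pos.le
      have h4 : (2 : ℝ) ^ (x - e) ≤ 2 := by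
        calc (2 : ℝ) ^ (x - e) ≤ 2 ^ (1 : ℝ) :=
              Real.rpow_le_rpow_of_exponent_le (by norm_num) (by linarith)
          _ = 2 := Real.rpow_one 2
      have h5 : (2 : ℝ) ≤ (N₁ : ℝ) ^ (e / 2) :=
        hN5.trans (Real.rpow_le_rpow hNpos.le (by linarith) (by linarith))
      have hN₁1 : (1 : ℝ) ≤ N₁ := by linarith
      calc (n : ℝ) ^ (x - ε) ≤ 2 ^ (x - e) * (N₁ : ℝ) ^ (x - e) := by
            rw [← h3]; exact h1.trans h2
        _ ≤ (N₁ : ℝ) ^ (e / 2) * (N₁ : ℝ) ^ (x - e) :=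
            mul_le_mul_of_nonneg_right (h4.trans h5) (Real.rpow_nonneg hN₁pos.le _)
        _ = (N₁ : ℝ) ^ (e / 2 + (x - e)) := (Real.rpow_add hN₁pos _ _).symm
        _ ≤ _ := by
            apply Real.rpow_le_rpow_of_exponent_le hN₁1
            rw [hθ] at hs2
            linarith
    · have hyn : (N₁ : ℝ) ≤ n := by exact_mod_cast hn1.le
      obtain ⟨g1, g2⟩ := hran n hyn hnr
      have hfr : Int.fract (a0 p n) = Pool.Agent.Helper82.CN.al p n - a := by
        rw [Int.fract_eq_iff]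
        refine ⟨by rw [hθ] at hs2; linarith, by linarith, (a : ℤ), ?_⟩
        push_cast
        unfold a0
        ring
      have h1 := hnU n (by omega) (by rw [hfr]; rw [hθ] at hs2; linarith)
      rw [hfr] at h1
      refine h1.trans (Real.rpow_le_rpow_of_exponent_le hn1' ?_)
      linarith
  exact_mod_cast Finset.card_le_card hsub

end Pool.Agent.Helper10.UX
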