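import Pool.Agent.Helper69.UX.StE

set_option autoImplicit false

namespace Pool.Agent.Helper10.UX

open Finset Filter Pool.Agent.Helper82.CN Pool.Agent.Helper11.PV Pool.Agent.Helper69.VX
  Pool.Agent.Helper69.UX

namespace TIL

theorem mem_Pt' {V : Type} [Fintype V] {P : Finset (Finset V)} : P ∈ Pt V ↔
    (∀ A ∈ P, A.Nonempty) ∧ (∀ A ∈ P, ∀ B ∈ P, A ≠ B → Disjoint A B) ∧
      ∀ v : V, ∃ A ∈ P, v ∈ A := by
  classical
  unfold Pt
  simp

theorem sum_card_Pt {n : ℕ} {P : Finset (Finset (Fin n))} (hP : P ∈ Pt (Fin n)) :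
    ∑ A ∈ P, A.card = n := by
  classical
  rw [mem_Pt'] at hP
  obtain ⟨h1, h2, h3⟩ := hP
  have h4 : P.biUnion id = univ := by
    ext v
    simp only [mem_biUnion, id, mem_univ, iff_true]
    exact h3 v
  have h5 := Finset.card_biUnion (s := P) (t := id) (fun A hA B hB hAB => h2 A hA B hB hAB)
  rw [h4, card_univ, Fintype.card_fin] at h5
  exact h5.symm

theorem ev_TIL (ε C : ℝ) (hε : 0 < ε) (hC : 1 ≤ C) : ∃ n0 : ℕ, ∀ n : ℕ, n0 ≤ n →
    1 ≤ n ∧ 3 + Real.log n ^ 3 + Real.log (C * n) ≤ (n : ℝ) ^ ε / 2 := by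
  have h1 : ∀ᶠ x : ℝ in atTop, Real.log x ^ 3 ≤ x ^ ε / 8 := by
    have h := (isLittleO_log_rpow_rpow_atTop (3 : ℝ) hε).bound (show (0 : ℝ) < 1 / 8 by norm_num)
    filter_upwards [h, eventually_ge_atTop 1] with x hx hx1
    have e1 : (Real.log x) ^ (3 : ℝ) = Real.log x ^ 3 := by
      exact_mod_cast Real.rpow_natCast (Real.log x) 3
    rw [e1, Real.norm_eq_abs, Real.norm_eq_abs,
      abs_of_nonneg (pow_nonneg (Real.log_nonneg hx1) 3),
      abs_of_nonneg (Real.rpow_nonneg (by linarith) ε)] at hx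
    linarith
  have h2 : ∀ᶠ x : ℝ in atTop, Real.log x ≤ x ^ ε / 8 := by
    have h := (isLittleO_log_rpow_atTop hε).bound (show (0 : ℝ) < 1 / 8 by norm_num)
    filter_upwards [h, eventually_ge_atTop 1] with x hx hx1
    rw [Real.norm_eq_abs, Real.norm_eq_abs,
      abs_of_nonneg (Real.log_nonneg hx1),
      abs_of_nonneg (Real.rpow_nonneg (by linarith) ε)] at hx
    linarith
  have h3 : ∀ᶠ x : ℝ in atTop, 8 * (3 + Real.log C) ≤ x ^ ε :=
    (tendsto_rpow_atTop hε).eventually_ge_atTop _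
  have h4 := tendsto_natCast_atTop_atTop.eventually ((h1.and h2).and
    (h3.and (eventually_ge_atTop (1 : ℝ))))
  obtain ⟨n0, hn0⟩ := eventually_atTop.1 h4
  refine ⟨n0, fun n hn => ?_⟩
  obtain ⟨⟨g1, g2⟩, g3, g4⟩ := hn0 n hn
  have hn1 : (0 : ℝ) < n := by linarith
  rw [Real.log_mul (by positivity) (by positivity)]
  have g5 : (0 : ℝ) ≤ (n : ℝ) ^ ε := by positivity
  refine ⟨by exact_mod_cast g4, by linarith⟩

theorem til_small {ε C th : ℝ} {n : ℕ} (hε : 0 < ε) (hC : 1 ≤ C) (hn : 1 ≤ n) (hth : 0 ≤ th)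
    (h : 3 + Real.log n ^ 3 + Real.log (C * n) ≤ (n : ℝ) ^ ε / 2) :
    (1 + Real.log n ^ 3) * (n : ℝ) ^ (th + 3 * ε) + (n : ℝ) ^ (th + 2 * ε) * Real.log (C * n) ≤
      (n : ℝ) ^ (th + 4 * ε) / 2 - 2 := by
  have hn1 : (1 : ℝ) ≤ n := by exact_mod_cast hn
  have hn0 : (0 : ℝ) < n := by linarith
  have e1 : (n : ℝ) ^ (th + 4 * ε) = (n : ℝ) ^ (th + 3 * ε) * (n : ℝ) ^ ε := by
    rw [← Real.rpow_add hn0]; ring_nf
  have e2 : (1 : ℝ) ≤ (n : ℝ) ^ (th + 3 * ε) := Real.one_le_rpow hn1 (by positivity)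
  have e3 : (n : ℝ) ^ (th + 2 * ε) ≤ (n : ℝ) ^ (th + 3 * ε) :=
    Real.rpow_le_rpow_of_exponent_le hn1 (by linarith)
  have hCn : 1 ≤ C * n := by nlinarith
  have e4 : 0 ≤ Real.log (C * n) := Real.log_nonneg hCn
  have e5 := mul_le_mul_of_nonneg_right e3 e4
  have e6 := mul_le_mul_of_nonneg_left h (le_trans zero_le_one e2)
  rw [e1]
  nlinarith

theorem kap_nonneg {p ε C δ : ℝ} {n T : ℕ} {th : ℝ} {κ : ℕ → ℝ} {lam mu : ℝ} (hp1 : p < 1)
    (h : Par p ε C δ n T th κ lam mu) (v : ℕ) : 0 ≤ κ v := by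
  by_cases hv : v = 0 ∨ T < v
  · rw [h.zer v hv]
  · push Not at hv
    rw [h.eq v (by omega) hv.2]
    unfold om
    have : 0 < 1 - p := by linarith
    positivity

theorem sum_kD {T : ℕ} {κ : ℕ → ℝ} (f : ℕ → ℝ) :
    ∑ v ∈ range (T + 2), kD T κ v * f v = ∑ v ∈ range (T + 1), κ v * f v + f (T + 1) := by
  rw [sum_range_succ]
  congr 1
  · refine sum_congr rfl fun v hv => ?_
    have : v ≠ T + 1 := by
      have := mem_range.1 hv
      omega
    simp [kD, this]
  · simp [kD]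

theorem til_core {p ε C δ : ℝ} {n T : ℕ} {th : ℝ} {κ : ℕ → ℝ} {lam mu : ℝ} (hp1 : p < 1)
    (hC : 1 ≤ C) (hn : 1 ≤ n) (h : Par p ε C δ n T th κ lam mu)
    {P : Finset (Finset (Fin n))} (hP : P ∈ Pt (Fin n)) (hsz : ∀ A ∈ P, A.card ≤ T + 1) (J : ℝ)
    (hj : (((P.filter (fun A => A.card = T + 1)).card : ℕ) : ℝ) ≤ J) :
    (1 - p) ^ inn P ≤ pw (gf (kD T κ)) P / ((n.factorial : ℝ) * Real.exp (KK T κ)) *
      Real.exp (-lam * (P.card - KK T κ) + (n : ℝ) ^ (th + 3 * ε) + J * Real.log (C * n)) := by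
  have hq : 0 < 1 - p := by linarith
  have hn1 : (1 : ℝ) ≤ n := by exact_mod_cast hn
  have hCn : 1 ≤ C * n := by nlinarith
  have hCn0 : 0 < C * n := by linarith
  have hgf : ∀ v, 0 ≤ gf (kD T κ) v := by
    intro v
    unfold gf kD
    have := kap_nonneg hp1 h v
    split_ifs
    · positivity
    · positivity
  have h1 : (1 - p) ^ inn P = ∏ A ∈ P, (1 - p) ^ (A.card.choose 2) := by
    unfold inn
    rw [Finset.prod_pow_eq_pow_sum]
  have h2 : ∀ A ∈ P, (1 - p) ^ (A.card.choose 2) ≤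
      gf (kD T κ) A.card * Real.exp (-lam - mu * A.card) *
        (if A.card = T + 1 then C * n else 1) := by
    intro A hA
    have hA1 : 1 ≤ A.card := by
      have := (mem_Pt'.1 hP).1 A hA
      exact this.card_pos
    have hA2 := hsz A hA
    have hfac : (0 : ℝ) < (A.card.factorial : ℝ) := by positivity
    have hom : (1 - p) ^ (A.card.choose 2) = (A.card.factorial : ℝ) * om p A.card := by
      unfold om
      field_simp
    by_cases hT : A.card = T + 1
    · simp only [hT, if_true] at hom hfac ⊢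
      rw [hom]
      have hx := h.nxt
      have hk : gf (kD T κ) (T + 1) = ((T + 1).factorial : ℝ) := by
        simp [gf, kD]
      rw [hk]
      have hx2 : om p (T + 1) ≤ Real.exp (-lam - mu * ((T : ℝ) + 1)) * (C * n) := by
        have h3 := mul_le_mul_of_nonneg_left hx (Real.exp_pos (-lam - mu * ((T : ℝ) + 1))).le
        rw [← mul_assoc, ← Real.exp_add] at h3
        have h4 : -lam - mu * ((T : ℝ) + 1) + (lam + mu * ((T : ℝ) + 1)) = 0 := by ring
        rw [h4, Real.exp_zero, one_mul] at h3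
        exact h3
      push_cast
      rw [mul_assoc]
      exact mul_le_mul_of_nonneg_left hx2 hfac.le
    · simp only [hT, if_false, mul_one]
      have hk : gf (kD T κ) A.card = (A.card.factorial : ℝ) *
          (Real.exp (lam + mu * A.card) * om p A.card) := by
        simp only [gf, kD, hT, if_false]
        rw [h.eq A.card hA1 (by omega)]
      rw [hom, hk]
      have h4 : Real.exp (lam + mu * A.card) * Real.exp (-lam - mu * A.card) = 1 := by
        rw [← Real.exp_add]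
        have : lam + mu * A.card + (-lam - mu * A.card) = 0 := by ring
        rw [this, Real.exp_zero]
      have h5 : (A.card.factorial : ℝ) * (Real.exp (lam + mu * A.card) * om p A.card) *
          Real.exp (-lam - mu * A.card) = (A.card.factorial : ℝ) * om p A.card *
            (Real.exp (lam + mu * A.card) * Real.exp (-lam - mu * A.card)) := by ring
      rw [h5, h4, mul_one]
  have h3 : (1 - p) ^ inn P ≤ pw (gf (kD T κ)) P *
      Real.exp (-lam * P.card - mu * n) * (C * n) ^ (P.filter (fun A => A.card = T + 1)).card := by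
    rw [h1]
    refine (prod_le_prod (fun A _ => by positivity) h2).trans (le_of_eq ?_)
    rw [prod_mul_distrib, prod_mul_distrib]
    congr 1
    · congr 1
      rw [← Real.exp_sum]
      congr 1
      rw [sum_sub_distrib, sum_const, nsmul_eq_mul, ← mul_sum, ← Nat.cast_sum, sum_card_Pt hP]
      ring
    · rw [← prod_filter, prod_const]
  have h4 : (C * n) ^ (P.filter (fun A => A.card = T + 1)).card ≤
      Real.exp (J * Real.log (C * n)) := by
    have : (C * n) ^ (P.filter (fun A => A.card = T + 1)).card =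
        Real.exp ((((P.filter (fun A => A.card = T + 1)).card : ℕ) : ℝ) * Real.log (C * n)) := by
      rw [← Real.log_pow, Real.exp_log (by positivity)]
    rw [this]
    exact Real.exp_le_exp.2 (mul_le_mul_of_nonneg_right hj (Real.log_nonneg hCn))
  have hpw : 0 ≤ pw (gf (kD T κ)) P := prod_nonneg fun A _ => hgf _
  have h5 : (n.factorial : ℝ) = Real.exp ((n : ℝ) ^ (th + 3 * ε) + mu * n + lam * KK T κ -
      KK T κ) := by
    rw [← h.ent]
    have : Real.log (n.factorial : ℝ) - mu * n - lam * KK T κ + KK T κ + mu * n + lam * KK T κ -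
      KK T κ = Real.log (n.factorial : ℝ) := by ring
    rw [this, Real.exp_log (by positivity)]
  calc (1 - p) ^ inn P ≤ _ := h3
    _ ≤ pw (gf (kD T κ)) P * Real.exp (-lam * P.card - mu * n) *
          Real.exp (J * Real.log (C * n)) :=
        mul_le_mul_of_nonneg_left h4 (by positivity)
    _ = _ := by
      rw [h5, ← Real.exp_add, div_mul_eq_mul_div, mul_assoc, mul_div_assoc, ← Real.exp_add,
        ← Real.exp_sub]
      congr 2
      ring

end TIL

open TIL in
theorem hTIL : StTLT → StSIZ → StTIL := by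
  intro hTLT _ p ε C hp hp1 hε hε1 hC
  have hp2 : p < 1 := by
    have : 0 < 1 / Real.exp 2 := by positivity
    linarith
  have hq : 0 < 1 - p := by linarith
  obtain ⟨n0, hn0⟩ := ev_TIL ε C hε hC
  refine ⟨n0, fun δ n T th κ lam mu hn hW h => ?_⟩
  obtain ⟨hn1, hbig⟩ := hn0 n hn
  have hn1' : (1 : ℝ) ≤ n := by exact_mod_cast hn1
  have hth : 0 ≤ th := by linarith [hW.2.1]
  have hsm := til_small hε hC hn1 hth hbig
  have hk0 : ∀ v, 0 ≤ kD T κ v := by
    intro v
    unfold kD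
    split_ifs
    · norm_num
    · exact kap_nonneg hp2 h v
  have hsum : ∑ v ∈ range (T + 2), kD T κ v = KK T κ + 1 := by
    have := sum_kD (T := T) (κ := κ) (fun _ => 1)
    simpa [KK] using this
  have hK0 : 0 ≤ KK T κ := sum_nonneg fun v _ => kap_nonneg hp2 h v
  have hKn : KK T κ ≤ n := by
    rw [← h.sum]
    unfold KK
    refine sum_le_sum fun v _ => ?_
    rcases Nat.eq_zero_or_pos v with rfl | hv
    · rw [h.zer 0 (Or.inl rfl)]; simp
    · have : (1 : ℝ) ≤ v := by exact_mod_cast hv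
      nlinarith [kap_nonneg hp2 h v]
  have hWt : Wt n T (kD T κ) := by
    refine ⟨hk0, ?_, ?_, ?_, ?_⟩
    · have : (0 : ℕ) ≠ T + 1 := by omega
      simp only [kD, this, if_false]
      exact h.zer 0 (Or.inl rfl)
    · intro v hv
      have : v ≠ T + 1 := by omega
      simp only [kD, this, if_false]
      exact h.zer v (Or.inr (by omega))
    · simp [kD]
    · rw [hsum]
      linarith
  have hL0 : 0 ≤ Real.log (n : ℝ) := Real.log_nonneg hn1'
  have hX3 : (0 : ℝ) ≤ (n : ℝ) ^ (th + 3 * ε) := by positivity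
  have hfac : (0 : ℝ) < (n.factorial : ℝ) := by positivity
  have hgf0 : ∀ v, 0 ≤ gf (kD T κ) v := fun v => by
    unfold gf
    exact mul_nonneg (by positivity) (hk0 v)
  have hpw0 : ∀ P : Finset (Finset (Fin n)), 0 ≤ pw (gf (kD T κ)) P :=
    fun P => prod_nonneg fun A _ => hgf0 _
  -- the bound with a drop of the number of classes
  have hA : ∀ P ∈ QQ ε n T th κ, (1 - p) ^ inn P ≤ pw (gf (kD T κ)) P /
      ((n.factorial : ℝ) * Real.exp (KK T κ)) * Real.exp ((n : ℝ) ^ (th + 4 * ε) / 2 - 2) := by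
    intro P hP
    obtain ⟨hP1, hP2, hP3, hP4⟩ := mem_filter.1 hP
    refine (til_core hp2 hC hn1 h hP1 hP2 _ hP3).trans ?_
    refine mul_le_mul_of_nonneg_left (Real.exp_le_exp.2 ?_) (by have := hpw0 P; positivity)
    have e1 : -lam * (P.card - KK T κ) ≤ Real.log n ^ 3 * (n : ℝ) ^ (th + 3 * ε) := by
      have hl : 0 ≤ -lam := by linarith [h.lam1]
      calc -lam * (P.card - KK T κ) ≤ -lam * (n : ℝ) ^ (th + 3 * ε) :=
            mul_le_mul_of_nonneg_left (by linarith) hl
        _ ≤ _ := mul_le_mul_of_nonneg_right h.lam2 hX3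
    linarith
  have hB : ∀ s : ℝ, 0 ≤ s → ∀ P ∈ QQ ε n T th κ, (P.card : ℝ) ≤ KK T κ - s →
      (1 - p) ^ inn P ≤ pw (gf (kD T κ)) P /
      ((n.factorial : ℝ) * Real.exp (KK T κ)) * Real.exp ((n : ℝ) ^ (th + 4 * ε) / 2 - 2 - s) := by
    intro s hs P hP hPs
    obtain ⟨hP1, hP2, hP3, hP4⟩ := mem_filter.1 hP
    refine (til_core hp2 hC hn1 h hP1 hP2 _ hP3).trans ?_
    refine mul_le_mul_of_nonneg_left (Real.exp_le_exp.2 ?_) (by have := hpw0 P; positivity)
    have e1 : -lam * (P.card - KK T κ) ≤ -s := by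
      have hl : 1 ≤ -lam := by linarith [h.lam1]
      nlinarith
    have e2 : 0 ≤ Real.log n ^ 3 * (n : ℝ) ^ (th + 3 * ε) := by positivity
    linarith
  have hT : ∀ ψ : ℕ → ℝ, ∑ P ∈ Pt (Fin n), pw (gf (kD T κ)) P *
      Real.exp (∑ A ∈ P, ψ A.card) ≤ (n.factorial : ℝ) *
        Real.exp (∑ v ∈ range (T + 1), κ v * Real.exp (ψ v) + Real.exp (ψ (T + 1))) := by
    intro ψ
    have h1 := hTLT n (T + 1) (fun v => gf (kD T κ) v * Real.exp (ψ v))
      (fun v => mul_nonneg (hgf0 v) (Real.exp_pos _).le)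
      (by simp only [gf, hWt.z0]; simp) (fun v hv => by simp only [gf, hWt.zz v hv]; simp)
    have h2 : ∀ P : Finset (Finset (Fin n)), pw (fun v => gf (kD T κ) v * Real.exp (ψ v)) P =
        pw (gf (kD T κ)) P * Real.exp (∑ A ∈ P, ψ A.card) := by
      intro P
      unfold pw
      rw [prod_mul_distrib, Real.exp_sum]
    have h3 : ∑ v ∈ range (T + 1 + 1), gf (kD T κ) v * Real.exp (ψ v) / (v.factorial : ℝ) =
        ∑ v ∈ range (T + 1), κ v * Real.exp (ψ v) + Real.exp (ψ (T + 1)) := by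
      rw [← sum_kD]
      refine sum_congr rfl fun v _ => ?_
      unfold gf
      field_simp
    rw [h3] at h1
    simpa only [h2] using h1
  refine ⟨hWt, ?_, ?_, ?_⟩
  · intro P hP
    refine (hA P hP).trans ?_
    rw [hsum, Real.exp_add (KK T κ) 1]
    have hpw := hpw0 P
    have e1 : Real.exp ((n : ℝ) ^ (th + 4 * ε) / 2) * pw (gf (kD T κ)) P /
        ((n.factorial : ℝ) * (Real.exp (KK T κ) * Real.exp 1)) =
        pw (gf (kD T κ)) P / ((n.factorial : ℝ) * Real.exp (KK T κ)) *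
          Real.exp ((n : ℝ) ^ (th + 4 * ε) / 2 - 1) := by
      rw [Real.exp_sub]
      field_simp
    rw [e1]
    exact mul_le_mul_of_nonneg_left (Real.exp_le_exp.2 (by linarith)) (by positivity)
  · intro ψ a hψ
    have h1 : ∀ P ∈ (QQ ε n T th κ).filter (fun P => a ≤ ∑ A ∈ P, ψ A.card),
        (1 - p) ^ inn P ≤ (Real.exp ((n : ℝ) ^ (th + 4 * ε) / 2 - 2 - a) /
          ((n.factorial : ℝ) * Real.exp (KK T κ))) *
          (pw (gf (kD T κ)) P * Real.exp (∑ A ∈ P, ψ A.card)) := by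
      intro P hP
      obtain ⟨hP1, hP2⟩ := mem_filter.1 hP
      have hpw := hpw0 P
      refine (hA P hP1).trans ?_
      have e1 : Real.exp ((n : ℝ) ^ (th + 4 * ε) / 2 - 2) ≤
          Real.exp ((n : ℝ) ^ (th + 4 * ε) / 2 - 2 - a) * Real.exp (∑ A ∈ P, ψ A.card) := by
        rw [← Real.exp_add]
        exact Real.exp_le_exp.2 (by linarith)
      calc _ ≤ pw (gf (kD T κ)) P / ((n.factorial : ℝ) * Real.exp (KK T κ)) *
            (Real.exp ((n : ℝ) ^ (th + 4 * ε) / 2 - 2 - a) * Real.exp (∑ A ∈ P, ψ A.card)) :=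
            mul_le_mul_of_nonneg_left e1 (by positivity)
        _ = _ := by ring
    have h2 : ∑ P ∈ (QQ ε n T th κ).filter (fun P => a ≤ ∑ A ∈ P, ψ A.card),
        (1 - p) ^ inn P ≤ ∑ P ∈ Pt (Fin n), (Real.exp ((n : ℝ) ^ (th + 4 * ε) / 2 - 2 - a) /
          ((n.factorial : ℝ) * Real.exp (KK T κ))) *
          (pw (gf (kD T κ)) P * Real.exp (∑ A ∈ P, ψ A.card)) := by
      refine (sum_le_sum h1).trans (sum_le_sum_of_subset_of_nonneg ?_ ?_)
      · exact (filter_subset _ _).trans (filter_subset _ _)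
      · intro P _ _
        have hpw := hpw0 P
        positivity
    refine h2.trans ?_
    rw [← mul_sum]
    refine (mul_le_mul_of_nonneg_left (hT ψ) (by positivity)).trans ?_
    have e1 : Real.exp ((n : ℝ) ^ (th + 4 * ε) / 2 - 2 - a) /
          ((n.factorial : ℝ) * Real.exp (KK T κ)) * ((n.factorial : ℝ) *
        Real.exp (∑ v ∈ range (T + 1), κ v * Real.exp (ψ v) + Real.exp (ψ (T + 1)))) =
        Real.exp ((n : ℝ) ^ (th + 4 * ε) / 2 - 2 - a - KK T κ +
          (∑ v ∈ range (T + 1), κ v * Real.exp (ψ v) + Real.exp (ψ (T + 1)))) := by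
      rw [Real.exp_add ((n : ℝ) ^ (th + 4 * ε) / 2 - 2 - a - KK T κ), Real.exp_sub _ (KK T κ)]
      field_simp
    rw [e1]
    apply Real.exp_le_exp.2
    have e2 : ∑ u ∈ range (T + 1), κ u * (Real.exp (ψ u) - 1) =
        ∑ v ∈ range (T + 1), κ v * Real.exp (ψ v) - KK T κ := by
      unfold KK
      rw [← sum_sub_distrib]
      refine sum_congr rfl fun v _ => by ring
    rw [e2]
    linarith
  · intro s hs
    have h1 : ∀ P ∈ (QQ ε n T th κ).filter (fun P => (P.card : ℝ) ≤ KK T κ - s),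
        (1 - p) ^ inn P ≤ (Real.exp ((n : ℝ) ^ (th + 4 * ε) / 2 - 2 - s) /
          ((n.factorial : ℝ) * Real.exp (KK T κ))) *
          (pw (gf (kD T κ)) P * Real.exp (∑ A ∈ P, (fun _ => (0 : ℝ)) A.card)) := by
      intro P hP
      obtain ⟨hP1, hP2⟩ := mem_filter.1 hP
      refine (hB s hs P hP1 hP2).trans (le_of_eq ?_)
      simp only [sum_const_zero, Real.exp_zero, mul_one]
      ring
    have h2 : ∑ P ∈ (QQ ε n T th κ).filter (fun P => (P.card : ℝ) ≤ KK T κ - s),
        (1 - p) ^ inn P ≤ ∑ P ∈ Pt (Fin n), (Real.exp ((n : ℝ) ^ (th + 4 * ε) / 2 - 2 - s) /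
          ((n.factorial : ℝ) * Real.exp (KK T κ))) *
          (pw (gf (kD T κ)) P * Real.exp (∑ A ∈ P, (fun _ => (0 : ℝ)) A.card)) := by
      refine (sum_le_sum h1).trans (sum_le_sum_of_subset_of_nonneg ?_ ?_)
      · exact (filter_subset _ _).trans (filter_subset _ _)
      · intro P _ _
        have hpw := hpw0 P
        positivity
    refine h2.trans ?_
    rw [← mul_sum]
    refine (mul_le_mul_of_nonneg_left (hT (fun _ => (0 : ℝ))) (by positivity)).trans ?_
    simp only [Real.exp_zero, mul_one]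
    have e0 : ∑ v ∈ range (T + 1), κ v = KK T κ := rfl
    rw [e0]
    have e1 : Real.exp ((n : ℝ) ^ (th + 4 * ε) / 2 - 2 - s) /
          ((n.factorial : ℝ) * Real.exp (KK T κ)) * ((n.factorial : ℝ) *
        Real.exp (KK T κ + 1)) =
        Real.exp ((n : ℝ) ^ (th + 4 * ε) / 2 - 2 - s + 1) := by
      rw [Real.exp_add, Real.exp_add]
      field_simp
    rw [e1]
    exact Real.exp_le_exp.2 (by linarith)

end Pool.Agent.Helper10.UX
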